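import Pool.Agent.U36.TS.Stm

/-!
# Project TSH, package TR: the abstract situation for a section
-/

set_option autoImplicit false

namespace Pool.Agent.U978.TS

open Pool.Agent.TH954 Pool.Agent.U36.TS

/-- roots of unity come from `B` -/
lemma unity {B M : Type} [Field B] [Field M] (j : B →+* M) {n : ℕ} (hn : 0 < n) {z : B}
    (hz : IsPrimitiveRoot z n) {x : M} (hx : x ^ n = 1) : ∃ i : ℕ, x = j (z ^ i) := by
  have h1 : IsPrimitiveRoot (j z) n := hz.map_of_injective j.injective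
  have : NeZero n := ⟨hn.ne'⟩
  obtain ⟨i, -, hi⟩ := h1.eq_pow_of_pow_eq_one hx
  exact ⟨i, by rw [map_pow, hi]⟩

lemma mem_of_pow {M : Type} [Field M] (W : ValuationSubring M) {x : M} {n : ℕ} (hn : n ≠ 0)
    (h : x ^ n ∈ W) : x ∈ W := by
  rcases W.mem_or_inv_mem x with h1 | h1
  · exact h1
  · by_cases hx : x = 0
    · rw [hx]; exact W.zero_mem
    · obtain ⟨k, rfl⟩ := Nat.exists_eq_succ_of_ne_zero hn
      have h2 : x = x ^ (k + 1) * (x⁻¹) ^ k := by
        rw [pow_succ, inv_pow]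
        field_simp
      rw [h2]
      exact W.mul_mem _ _ h (W.toSubring.pow_mem h1 k)

lemma const_mem {K M B : Type} [Field K] [Field M] [Field B] [Algebra K M] [Algebra K B]
    [Algebra.IsAlgebraic K B] (j : B →ₐ[K] M) (W : ValuationSubring M)
    (hW : ∀ c : K, algebraMap K M c ∈ W) (b : B) : j b ∈ W := by
  have h1 : IsIntegral K (j b) := (Algebra.IsAlgebraic.isAlgebraic b).isIntegral.map j
  obtain ⟨P, hP, hP0⟩ := h1
  let φ : K →+* W := (algebraMap K M).codRestrict W.toSubring hW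
  have h2 : IsIntegral W (j b) := ⟨P.map φ, hP.map φ, by
    rw [Polynomial.eval₂_map]
    exact hP0⟩
  obtain ⟨y, hy⟩ := IsIntegrallyClosed.isIntegral_iff.1 h2
  rw [← hy]
  exact y.2

/-- continuity of the section and the structure of wild inertia -/
lemma stab (hPP : S_PP) {K F M B : Type} [Field K] [Field F] [Field M] [Field B] [CharZero K]
    [Algebra K F] [Algebra F M] [Algebra K M] [IsScalarTower K F M] [Algebra.IsAlgebraic F M]
    [Algebra K B] [IsAlgClosure K B] (s : GalSection K F M B) (V : ValuationSubring B) (p : ℕ)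
    (hp : p.Prime) (hpV : (p : B) ∈ V.nonunits) (g : B ≃ₐ[K] B) (hg : Wild V g) (x : M) :
    ∃ i : ℕ, s.s (g ^ p ^ i) x = x := by
  have : FiniteDimensional F (IntermediateField.adjoin F {x}) :=
    IntermediateField.adjoin.finiteDimensional (Algebra.IsAlgebraic.isAlgebraic x).isIntegral
  have h1 : IsOpen ((IntermediateField.adjoin F {x}).fixingSubgroup : Set (M ≃ₐ[F] M)) :=
    IntermediateField.fixingSubgroup_isOpen _
  have h2 := h1.preimage s.cont
  have h3 : (s.s ⁻¹' ((IntermediateField.adjoin F {x}).fixingSubgroup : Set (M ≃ₐ[F] M))) ∈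
      nhds (1 : B ≃ₐ[K] B) := by
    apply h2.mem_nhds
    rw [Set.mem_preimage, map_one]
    exact Subgroup.one_mem _
  have : Normal K B := IsAlgClosure.normal K B
  rw [krullTopology_mem_nhds_one_iff_of_normal] at h3
  obtain ⟨L, hL1, hL2, hL3⟩ := h3
  obtain ⟨i, hi⟩ := hPP K B V p hp hpV g hg L hL1 hL2
  refine ⟨i, ?_⟩
  have h4 : g ^ p ^ i ∈ (L.fixingSubgroup : Set (B ≃ₐ[K] B)) := by
    rw [SetLike.mem_coe, IntermediateField.mem_fixingSubgroup_iff]
    exact hi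
  have h5 := hL3 h4
  rw [Set.mem_preimage, SetLike.mem_coe, IntermediateField.mem_fixingSubgroup_iff] at h5
  exact h5 x (IntermediateField.mem_adjoin_simple_self F x)

section restr

variable {K F M B : Type} [Field K] [Field F] [Field M] [Field B] [Algebra F M] [Algebra K M]
  [Algebra K B]

lemma fix_conj (s : GalSection K F M B) (V : ValuationSubring B) (h : B ≃ₐ[K] B)
    (h1 : ∀ g : B ≃ₐ[K] B, Wild V g → Wild V (h⁻¹ * g * h)) {x : M} (hx : x ∈ fixW s V) :
    s.s h x ∈ fixW s V := by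
  intro g hg
  have h2 := hx _ (h1 g hg)
  have h3 : g * h = h * (h⁻¹ * g * h) := by group
  calc s.s g (s.s h x) = s.s (g * h) x := by rw [map_mul]; rfl
    _ = s.s h (s.s (h⁻¹ * g * h) x) := by rw [h3, map_mul]; rfl
    _ = s.s h x := by rw [h2]

/-- the restriction of `s h` -/
noncomputable def restr (s : GalSection K F M B) (V : ValuationSubring B) (h : B ≃ₐ[K] B)
    (h1 : ∀ g : B ≃ₐ[K] B, Wild V g → Wild V (h⁻¹ * g * h))
    (h2 : ∀ g : B ≃ₐ[K] B, Wild V g → Wild V (h * g * h⁻¹)) : fixW s V ≃+* fixW s V where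
  toFun x := ⟨s.s h x, fix_conj s V h h1 x.2⟩
  invFun x := ⟨s.s h⁻¹ x, fix_conj s V h⁻¹ (fun g hg => by rw [inv_inv]; exact h2 g hg) x.2⟩
  left_inv x := by
    apply Subtype.ext
    show s.s h⁻¹ (s.s h x) = x
    rw [← AlgEquiv.mul_apply, ← map_mul, inv_mul_cancel, map_one]
    rfl
  right_inv x := by
    apply Subtype.ext
    show s.s h (s.s h⁻¹ x) = x
    rw [← AlgEquiv.mul_apply, ← map_mul, mul_inv_cancel, map_one]
    rfl
  map_mul' x y := by
    apply Subtype.ext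
    show s.s h (x * y) = s.s h x * s.s h y
    rw [map_mul]
  map_add' x y := by
    apply Subtype.ext
    show s.s h (x + y) = s.s h x + s.s h y
    rw [map_add]

lemma restr_apply (s : GalSection K F M B) (V : ValuationSubring B) (h : B ≃ₐ[K] B)
    (h1 : ∀ g : B ≃ₐ[K] B, Wild V g → Wild V (h⁻¹ * g * h))
    (h2 : ∀ g : B ≃ₐ[K] B, Wild V g → Wild V (h * g * h⁻¹)) (x : fixW s V) :
    (restr s V h h1 h2 x : M) = s.s h x := rfl

lemma restr_pow (s : GalSection K F M B) (V : ValuationSubring B) (h : B ≃ₐ[K] B)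
    (h1 : ∀ g : B ≃ₐ[K] B, Wild V g → Wild V (h⁻¹ * g * h))
    (h2 : ∀ g : B ≃ₐ[K] B, Wild V g → Wild V (h * g * h⁻¹)) (n : ℕ) (x : fixW s V) :
    (((restr s V h h1 h2) ^ n) x : M) = s.s (h ^ n) x := by
  induction n with
  | zero =>
    rw [pow_zero, pow_zero, map_one]
    rfl
  | succ n ih =>
    rw [pow_succ', pow_succ', map_mul]
    show s.s h ((((restr s V h h1 h2) ^ n) x : fixW s V) : M) = s.s h (s.s (h ^ n) x)
    rw [ih]

/-- the automorphism `s h` permutes the units over the curve -/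
lemma unit_map {U : Set (ValuationSubring F)} (σ : M ≃ₐ[F] M) {x : M} (hx : UnitOver U x) :
    UnitOver U (σ x) := by
  intro W hW
  have h1 : (W.comap (σ : M →+* M)).comap (algebraMap F M) ∈ U := by
    have h2 : (W.comap (σ : M →+* M)).comap (algebraMap F M) = W.comap (algebraMap F M) := by
      ext y
      simp only [ValuationSubring.mem_comap]
      have h3 : (σ : M →+* M) (algebraMap F M y) = algebraMap F M y := σ.commutes y
      rw [h3]
    rw [h2]
    exact hW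
  obtain ⟨h2, h3⟩ := hx _ h1
  rw [ValuationSubring.mem_comap] at h2 h3
  refine ⟨h2, ?_⟩
  have h4 : (σ : M →+* M) x⁻¹ = (σ x)⁻¹ := map_inv₀ σ x
  rw [h4] at h3
  exact h3

end restr

theorem t_TR (hPP : S_PP) (hWN : S_WN) (hRU : S_RU) : S_TR := by
  intro K F M B _ _ _ _ _ _ _ _ _ _ _ _ U hUK hRC s V p l q hp hl hpl hq hpV t f ht hf hw th
    hth hthc
  obtain ⟨hWmul, hWinv, hWc⟩ := hWN K B V q t f ht hf
  obtain ⟨hR1, hR2, hR3⟩ := hRU K B V p l q t f hp hl hpl hpV ht hf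
  have : Algebra.IsAlgebraic K B := IsAlgClosure.isAlgebraic
  have : IsAlgClosed B := IsAlgClosure.isAlgClosed K
  have hth1 : ∀ m, th m ^ l ^ m = 1 := fun m => (hth m).pow_eq_one
  -- roots
  have hroot : ∀ (x : M) (m : ℕ), x ≠ 0 → x ^ l ^ m ∈ fixW s V → x ∈ fixW s V := by
    intro x m hx0 hx g hg
    have h1 : s.s g x ^ l ^ m = x ^ l ^ m := by
      rw [← map_pow]
      exact hx g hg
    have h2 : (s.s g x / x) ^ l ^ m = 1 := by rw [div_pow, h1, div_self (pow_ne_zero _ hx0)]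
    obtain ⟨i, hi⟩ := unity (s.j : B →+* M) (pow_pos hl.pos m) (hth m) h2
    obtain ⟨ζ, hζ⟩ : ∃ ζ : B, ζ = th m ^ i := ⟨_, rfl⟩
    rw [← hζ] at hi
    have hζ1 : ζ ^ l ^ m = 1 := by rw [hζ, ← pow_mul, mul_comm, pow_mul, hth1, one_pow]
    have hζ2 : s.s g (s.j ζ) = s.j ζ := by rw [s.sec, hR3 g hg m ζ hζ1]
    have h3 : s.s g x = s.j ζ * x := by
      rw [div_eq_iff hx0] at hi
      exact hi
    have h4 : ∀ n : ℕ, s.s (g ^ n) x = s.j ζ ^ n * x := by
      intro n
      induction n with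
      | zero => rw [pow_zero, pow_zero, map_one, one_mul]; rfl
      | succ n ih =>
        rw [pow_succ' g, map_mul]
        show s.s g (s.s (g ^ n) x) = _
        rw [ih, map_mul, map_pow, hζ2, h3]
        ring
    obtain ⟨e, he⟩ := stab hPP s V p hp hpV g hg x
    rw [h4] at he
    have h5 : (s.j ζ) ^ p ^ e = 1 := by
      have h6 : ((s.j ζ) ^ p ^ e - 1) * x = 0 := by rw [sub_mul, he]; ring
      rcases mul_eq_zero.1 h6 with h7 | h7
      · exact sub_eq_zero.1 h7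
      · exact absurd h7 hx0
    have h6 : (s.j ζ) ^ l ^ m = 1 := by rw [← map_pow, hζ1, map_one]
    have h7 : (s.j ζ) ^ Nat.gcd (p ^ e) (l ^ m) = 1 := pow_gcd_eq_one.2 ⟨h5, h6⟩
    have h8 : Nat.gcd (p ^ e) (l ^ m) = 1 :=
      Nat.Coprime.pow _ _ ((Nat.coprime_primes hp hl).2 hpl)
    rw [h8, pow_one] at h7
    rw [h3, h7, one_mul]
  have hthW : ∀ m, s.j (th m) ∈ fixW s V := by
    intro m g hg
    rw [s.sec, hR3 g hg m _ (hth1 m)]
  -- constants in the valuation rings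
  have hcW : ∀ W : ValuationSubring M, W.comap (algebraMap F M) ∈ U →
      ∀ b : B, s.j b ∈ W := by
    intro W hW b
    apply const_mem
    intro c
    have h1 := hUK _ hW c
    rw [ValuationSubring.mem_comap, ← IsScalarTower.algebraMap_apply] at h1
    exact h1
  have hcU : ∀ b : B, UnitOver U (s.j b) := by
    intro b W hW
    refine ⟨hcW W hW b, ?_⟩
    rw [← map_inv₀]
    exact hcW W hW _
  obtain ⟨T, hT⟩ : ∃ T : fixW s V ≃+* fixW s V, T = restr s V t
    (fun g hg => (hWc g hg).2.1) (fun g hg => (hWc g hg).1) := ⟨_, rfl⟩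
  obtain ⟨Ph, hPh⟩ : ∃ Ph : fixW s V ≃+* fixW s V, Ph = restr s V f
    (fun g hg => (hWc g hg).2.2.2) (fun g hg => (hWc g hg).2.2.1) := ⟨_, rfl⟩
  have hTa : ∀ x : fixW s V, (T x : M) = s.s t x := fun x => by rw [hT]; rfl
  have hPa : ∀ x : fixW s V, (Ph x : M) = s.s f x := fun x => by rw [hPh]; rfl
  have hTp : ∀ (n : ℕ) (x : fixW s V), ((T ^ n) x : M) = s.s (t ^ n) x := fun n x => by
    rw [hT]; exact restr_pow s V t _ _ n x
  refine ⟨fun m => ⟨s.j (th m), hthW m⟩, T, Ph, fun m => rfl, hTa, hPa, hroot, ?_⟩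
  have hjp : ∀ m, IsPrimitiveRoot (s.j (th m)) (l ^ m) := fun m =>
    (hth m).map_of_injective s.j.toRingHom.injective
  have hcoez : ∀ (m : ℕ) (i : ℤ), (((⟨s.j (th m), hthW m⟩ : fixW s V) ^ i : fixW s V) : M) =
      s.j (th m ^ i) := by
    intro m i
    rw [map_zpow₀]
    rfl
  refine ⟨hl, hq, ?_, ?_, ?_, ?_, ?_, ?_, ?_, ?_, ?_, ?_, ?_, ?_, ?_⟩
  · -- prim
    intro m
    exact IsPrimitiveRoot.of_map_of_injective (f := (fixW s V).subtype) (hjp m)
      (fixW s V).subtype_injective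
  · -- comp
    intro m
    apply Subtype.ext
    show (s.j (th (m + 1))) ^ l = s.j (th m)
    rw [← map_pow, hthc]
  · -- T_fix
    intro m
    apply Subtype.ext
    rw [hTa]
    show s.s t (s.j (th m)) = s.j (th m)
    rw [s.sec, (hR1 m _ (hth1 m)).1]
  · -- Ph_pow
    intro m
    apply Subtype.ext
    rw [hPa]
    show s.s f (s.j (th m)) = (s.j (th m)) ^ q
    rw [s.sec, (hR1 m _ (hth1 m)).2, map_pow]
  · -- rel
    intro x
    apply Subtype.ext
    rw [hPa, hTa, hTp, hPa]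
    obtain ⟨w', hw'⟩ : ∃ w', w' = f * t * f⁻¹ * (t ^ q)⁻¹ := ⟨_, rfl⟩
    have h1 : f * t = w' * (t ^ q * f) := by rw [hw']; group
    rw [← hw'] at hw
    have h2 : s.s (t ^ q * f) x ∈ fixW s V := by
      have h3 := ((T ^ q) (Ph x)).2
      rw [hTp, hPa] at h3
      rw [map_mul]
      exact h3
    calc s.s f (s.s t x) = s.s (f * t) x := by rw [map_mul]; rfl
      _ = s.s w' (s.s (t ^ q * f) x) := by
          rw [h1, map_mul]; rfl
      _ = s.s (t ^ q * f) x := h2 _ hw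
      _ = s.s (t ^ q) (s.s f x) := by rw [map_mul]; rfl
  · -- ne_zero
    intro x hx h0
    exact hx.1 (by rw [h0]; rfl)
  · -- mul
    intro x hx y hy
    refine ⟨mul_ne_zero hx.1 hy.1, fun W hW => ?_⟩
    obtain ⟨h1, h2⟩ := hx.2 W hW
    obtain ⟨h3, h4⟩ := hy.2 W hW
    refine ⟨W.mul_mem _ _ h1 h3, ?_⟩
    show ((x : M) * (y : M))⁻¹ ∈ W
    rw [mul_inv]
    exact W.mul_mem _ _ h2 h4
  · -- inv
    intro x hx
    refine ⟨inv_ne_zero hx.1, fun W hW => ?_⟩
    obtain ⟨h1, h2⟩ := hx.2 W hW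
    refine ⟨h2, ?_⟩
    show ((x : M)⁻¹)⁻¹ ∈ W
    rw [inv_inv]
    exact h1
  · -- T_mem
    intro x hx
    refine ⟨?_, ?_⟩
    · rw [hTa]
      exact (map_ne_zero (s.s t)).2 hx.1
    · rw [hTa]
      exact unit_map (s.s t) hx.2
  · -- root
    intro x hx m
    obtain ⟨w, hw'⟩ := hRC (x : M) hx.1 hx.2 (l ^ m) (pow_pos hl.pos m)
    have hw0 : w ≠ 0 := by
      rintro rfl
      rw [zero_pow (pow_pos hl.pos m).ne'] at hw'
      exact hx.1 hw'.symm
    have hwm : w ∈ fixW s V := hroot w m hw0 (by rw [hw']; exact x.2)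
    exact ⟨⟨w, hwm⟩, Subtype.ext hw'⟩
  · -- of_pow
    intro y m hy
    obtain ⟨h0, h1⟩ := hy
    have hn : l ^ m ≠ 0 := (pow_pos hl.pos m).ne'
    have h0' : ((y : M)) ^ l ^ m ≠ 0 := h0
    have hy0 : (y : M) ≠ 0 := by
      intro h
      rw [h, zero_pow hn] at h0'
      exact h0' rfl
    refine ⟨hy0, fun W hW => ?_⟩
    obtain ⟨h2, h3⟩ := h1 W hW
    have h2' : ((y : M)) ^ l ^ m ∈ W := h2
    have h3' : (((y : M)) ^ l ^ m)⁻¹ ∈ W := h3
    refine ⟨mem_of_pow W hn h2', mem_of_pow W hn ?_⟩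
    rw [inv_pow]
    exact h3'
  · -- one_sub
    intro x hx m hx1 i
    obtain ⟨h0, h1⟩ := hx1
    have h0' : (1 : M) - (x : M) ^ l ^ m ≠ 0 := h0
    obtain ⟨y, hy⟩ : ∃ y : M, y = s.j (th m ^ i) * x := ⟨_, rfl⟩
    have hcoe : ((1 - (⟨s.j (th m), hthW m⟩ : fixW s V) ^ i * x : fixW s V) : M) = 1 - y := by
      show (1 : M) - (((⟨s.j (th m), hthW m⟩ : fixW s V) ^ i : fixW s V) : M) * (x : M) = 1 - y
      rw [hcoez, hy]
    have hyn : y ^ l ^ m = (x : M) ^ l ^ m := by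
      rw [hy, mul_pow, ← map_pow]
      have h2 : (th m ^ i) ^ l ^ m = 1 := by
        rw [← zpow_natCast, ← zpow_mul, mul_comm, zpow_mul, zpow_natCast, hth1, one_zpow]
      rw [h2, map_one, one_mul]
    have hgeom : (1 - y) * ∑ k ∈ Finset.range (l ^ m), y ^ k = 1 - (x : M) ^ l ^ m := by
      rw [mul_neg_geom_sum, hyn]
    have hy1 : (1 : M) - y ≠ 0 := by
      intro h
      rw [h, zero_mul] at hgeom
      exact h0' hgeom.symm
    refine ⟨by rw [hcoe]; exact hy1, fun W hW => ?_⟩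
    rw [hcoe]
    have hyW : y ∈ W := by
      rw [hy]
      exact W.mul_mem _ _ (hcW W hW _) (hx.2 W hW).1
    have h3 : (1 - (x : M) ^ l ^ m)⁻¹ ∈ W := (h1 W hW).2
    refine ⟨W.toSubring.sub_mem W.toSubring.one_mem hyW, ?_⟩
    have h4 : (1 - y)⁻¹ = (∑ k ∈ Finset.range (l ^ m), y ^ k) * (1 - (x : M) ^ l ^ m)⁻¹ := by
      rw [← hgeom, mul_inv]
      have h5 : (∑ k ∈ Finset.range (l ^ m), y ^ k) ≠ 0 := by
        intro h
        rw [h, mul_zero] at hgeom
        exact h0' hgeom.symm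
      field_simp
    rw [h4]
    exact W.mul_mem _ _ (W.toSubring.sum_mem (fun k _ => W.toSubring.pow_mem hyW k)) h3
  · -- const
    intro m i hi
    obtain ⟨z, hz⟩ : ∃ z : B, z = th m ^ i := ⟨_, rfl⟩
    have hcoe : (((⟨s.j (th m), hthW m⟩ : fixW s V) ^ i - 1 : fixW s V) : M) = s.j (z - 1) := by
      show ((((⟨s.j (th m), hthW m⟩ : fixW s V) ^ i : fixW s V) : M)) - 1 = _
      rw [hcoez, map_sub, map_one, hz]
    have hz1 : z ≠ 1 := by
      intro h
      apply hi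
      apply Subtype.ext
      rw [hcoez, ← hz, h, map_one]
      rfl
    have hzl : z ^ l ^ m = 1 := by
      rw [hz, ← zpow_natCast, ← zpow_mul, mul_comm, zpow_mul, zpow_natCast, hth1, one_zpow]
    have hzs : z - 1 ≠ 0 := sub_ne_zero.2 hz1
    refine ⟨⟨by rw [hcoe]; exact (map_ne_zero s.j).2 hzs, by rw [hcoe]; exact hcU _⟩, ?_⟩
    intro k y hy
    have hy' : (y : M) ^ l ^ k = s.j (z - 1) := by
      rw [← hcoe, ← hy]
      rfl
    obtain ⟨b, hb⟩ := IsAlgClosed.exists_pow_nat_eq (z - 1) (pow_pos hl.pos k)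
    have hb0 : b ≠ 0 := by
      rintro rfl
      rw [zero_pow (pow_pos hl.pos k).ne'] at hb
      exact hzs hb.symm
    have hjb0 : s.j b ≠ 0 := (map_ne_zero s.j).2 hb0
    have h1 : ((y : M) / s.j b) ^ l ^ k = 1 := by
      rw [div_pow, hy', ← map_pow, hb, div_self ((map_ne_zero s.j).2 hzs)]
    obtain ⟨e, he⟩ := unity (s.j : B →+* M) (pow_pos hl.pos k) (hth k) h1
    have h2 : (y : M) = s.j (th k ^ e * b) := by
      rw [div_eq_iff hjb0] at he
      rw [he, map_mul]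
      rfl
    have h3 : (th k ^ e * b) ^ l ^ k = z - 1 := by
      rw [mul_pow, hb, ← pow_mul, mul_comm e, pow_mul, hth1, one_pow, one_mul]
    apply Subtype.ext
    rw [hTa, h2, s.sec, hR2 m k z (th k ^ e * b) hzl hz1 h3]

end Pool.Agent.U978.TS
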