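import Pool.Agent.U36.TS.Stm

/-!
# Project TSH, package WN: wild inertia is normalised by inertia and Frobenius elements
-/

set_option autoImplicit false

namespace Pool.Agent.U978.TS

open Pool.Agent.U36.TS

variable {K B : Type} [Field K] [Field B] [Algebra K B]

lemma nu_add (V : ValuationSubring B) {a b : B} (ha : a ∈ V.nonunits) (hb : b ∈ V.nonunits) :
    a + b ∈ V.nonunits := by
  rw [ValuationSubring.mem_nonunits_iff] at *
  exact lt_of_le_of_lt (V.valuation.map_add a b) (max_lt ha hb)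

lemma nu_mem (V : ValuationSubring B) {a : B} (ha : a ∈ V.nonunits) : a ∈ V := by
  rw [ValuationSubring.mem_nonunits_iff] at ha
  exact (V.valuation_le_one_iff a).1 ha.le

lemma nu_mul (V : ValuationSubring B) {a b : B} (ha : a ∈ V.nonunits) (hb : b ∈ V) :
    a * b ∈ V.nonunits := by
  rw [ValuationSubring.mem_nonunits_iff] at *
  rw [map_mul]
  have h1 := (V.valuation_le_one_iff b).2 hb
  calc V.valuation a * V.valuation b ≤ V.valuation a * 1 := mul_le_mul_right h1 _
    _ = V.valuation a := mul_one _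
    _ < 1 := ha

lemma nu_neg (V : ValuationSubring B) {a : B} (ha : a ∈ V.nonunits) : -a ∈ V.nonunits := by
  rw [ValuationSubring.mem_nonunits_iff] at *
  rwa [Valuation.map_neg]

lemma nu_inv (V : ValuationSubring B) {a : B} (ha : a ∈ V.nonunits) (h0 : a ≠ 0) : a⁻¹ ∉ V := by
  intro h
  have h1 := nu_mul V ha h
  rw [mul_inv_cancel₀ h0, ValuationSubring.mem_nonunits_iff, map_one] at h1
  exact lt_irrefl _ h1

lemma not_nu (V : ValuationSubring B) {b : B} (hb : b ∉ V.nonunits) : b⁻¹ ∈ V := by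
  rw [ValuationSubring.mem_nonunits_iff] at hb
  push Not at hb
  rw [← V.valuation_le_one_iff, map_inv₀]
  exact inv_le_one_of_one_le₀ hb

/-- `1 + a` is a unit -/
lemma one_add_inv (V : ValuationSubring B) {a : B} (ha : a ∈ V.nonunits) :
    1 + a ≠ 0 ∧ (1 + a)⁻¹ ∈ V := by
  have h1 : 1 + a ∉ V.nonunits := by
    intro h
    have h2 := nu_add V h (nu_neg V ha)
    rw [add_neg_cancel_right, ValuationSubring.mem_nonunits_iff, map_one] at h2
    exact lt_irrefl _ h2
  refine ⟨?_, not_nu V h1⟩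
  intro h
  apply h1
  rw [h, ValuationSubring.mem_nonunits_iff, map_zero]
  exact zero_lt_one

lemma wild_conj (V : ValuationSubring B) (h g : B ≃ₐ[K] B) (hh : ∀ a ∈ V.nonunits, h a ∈ V.nonunits)
    (hg : Wild V g) : Wild V (h * g * h⁻¹) := by
  intro x hx
  have hy : h⁻¹ x ≠ 0 := (map_ne_zero h⁻¹).2 hx
  have h1 := hh _ (hg _ hy)
  have h2 : h (h⁻¹ x) = x := by
    show (h * h⁻¹) x = x
    rw [mul_inv_cancel]
    rfl
  have h3 : h (g (h⁻¹ x) / (h⁻¹ x) - 1) = (h * g * h⁻¹) x / x - 1 := by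
    rw [map_sub, map_one, map_div₀, h2]
    rfl
  rw [← h3]
  exact h1

lemma pres (V : ValuationSubring B) (h : B ≃ₐ[K] B) (h1 : ∀ a ∈ V.nonunits, h a ∈ V.nonunits)
    (h2 : ∀ a ∈ V, h a ∈ V) : ∀ a ∈ V.nonunits, h⁻¹ a ∈ V.nonunits := by
  intro a ha
  by_contra hb
  have hback : h (h⁻¹ a) = a := by
    show (h * h⁻¹) a = a
    rw [mul_inv_cancel]
    rfl
  have h3 := h2 _ (not_nu V hb)
  rw [map_inv₀, hback] at h3
  by_cases h0 : a = 0
  · apply hb
    rw [h0, map_zero, ValuationSubring.mem_nonunits_iff, map_zero]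
    exact zero_lt_one
  · exact nu_inv V ha h0 h3

theorem t_WN : S_WN := by
  intro K B _ _ _ _ _ V q t f ht hf
  have ht1 : ∀ a ∈ V.nonunits, t a ∈ V.nonunits := by
    intro a ha
    have h1 := nu_add V (ht a (nu_mem V ha)) ha
    rwa [sub_add_cancel] at h1
  have ht2 : ∀ a ∈ V, t a ∈ V := by
    intro a ha
    have h1 := V.add_mem _ _ (nu_mem V (ht a ha)) ha
    rwa [sub_add_cancel] at h1
  have hf2 : ∀ a ∈ V, f a ∈ V := by
    intro a ha
    have h1 := V.add_mem _ _ (nu_mem V (hf a ha)) (V.toSubring.pow_mem ha q)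
    rwa [sub_add_cancel] at h1
  have hf1 : ∀ a ∈ V.nonunits, f a ∈ V.nonunits := by
    intro a ha
    by_cases hq : q = 0
    · -- `q = 0` is impossible: take `x = 0`
      have h1 := hf 0 V.zero_mem
      rw [hq, pow_zero, map_zero, zero_sub] at h1
      have h2 := nu_neg V h1
      rw [neg_neg, ValuationSubring.mem_nonunits_iff, map_one] at h2
      exact absurd h2 (lt_irrefl _)
    · obtain ⟨k, rfl⟩ := Nat.exists_eq_succ_of_ne_zero hq
      have h1 : a ^ (k + 1) ∈ V.nonunits := by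
        rw [pow_succ']
        exact nu_mul V ha (V.toSubring.pow_mem (nu_mem V ha) k)
      have h2 := nu_add V (hf a (nu_mem V ha)) h1
      rwa [sub_add_cancel] at h2
  refine ⟨?_, ?_, ?_⟩
  · intro g h hg hh x hx
    have h1 := hh x hx
    have hhx : h x ≠ 0 := (map_ne_zero h).2 hx
    have h2 := hg (h x) hhx
    have h3 : (g * h) x / x - 1 = (g (h x) / h x - 1) * (1 + (h x / x - 1)) + (h x / x - 1) := by
      show g (h x) / x - 1 = _
      field_simp
      ring
    rw [h3]
    apply nu_add V _ h1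
    apply nu_mul V h2
    exact V.add_mem _ _ V.one_mem (nu_mem V h1)
  · intro g hg x hx
    have hy : g⁻¹ x ≠ 0 := (map_ne_zero g⁻¹).2 hx
    have h1 := hg _ hy
    have h2 : g (g⁻¹ x) = x := by
      show (g * g⁻¹) x = x
      rw [mul_inv_cancel]
      rfl
    rw [h2] at h1
    obtain ⟨h3, h4⟩ := one_add_inv V h1
    have h5 : g⁻¹ x / x - 1 = -((x / g⁻¹ x - 1) * (1 + (x / g⁻¹ x - 1))⁻¹) := by
      have h6 : 1 + (x / g⁻¹ x - 1) = x / g⁻¹ x := by ring
      rw [h6, inv_div]
      field_simp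
      ring
    rw [h5]
    exact nu_neg V (nu_mul V h1 h4)
  · intro g hg
    refine ⟨wild_conj V t g ht1 hg, ?_, wild_conj V f g hf1 hg, ?_⟩
    · have h1 := wild_conj V t⁻¹ g (pres V t ht1 ht2) hg
      rwa [inv_inv] at h1
    · have h1 := wild_conj V f⁻¹ g (pres V f hf1 hf2) hg
      rwa [inv_inv] at h1

end Pool.Agent.U978.TS
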